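import Pool.Agent.L7h23.CurveVec
import Pool.Agent.N671.DA.Tup

/-!
# One explicit bound for the integer points of ALL plane curves whose coefficient vectors are good approximation vectors of a system of linear forms

Let `d ≥ 4`, `N = (d + 1) (d + 2) / 2`, let `α` be a real matrix with `N` rows, indexed by the monomials `x^i y^j`, `i + j ≤ d`,
and `m` columns, `β` in `ℝ^m` and `τ > 0`. We consider the integral polynomials `F` of degree `d` with
`‖∑ F_(i,j) α_(i,j),k - β_k‖ ≤ c ht(F) ^ (-τ)` for `k = 1, …, m`, where `F_(i,j)` are the coefficients, `ht(F)` is the largest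
of their absolute values and `‖x‖` is the distance to the nearest integer. For `β = 0`, `c = 1`, `τ = N / m` these include,
by the theorem of Minkowski, the polynomials whose coefficients form a best approximation vector of the system of the linear
forms; there are infinitely many of them for every `α`.

Outside a set of matrices `α` of Hausdorff dimension at most `(N - 1) m + (m + 4 d - 2) / (1 + τ)`, for all `c`, for all but
finitely many of these `F` that are irreducible over `ℚ` and have a squarefree leading form, all integer points of the curve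
`F = 0` satisfy `max (|x|, |y|) ≤ ((d + 1) h(F)) ^ C` with the explicit `C = 10 ^ 11 * 36 ^ d * (d + 1) ^ 13`. For `τ = N / m` the
dimension is less than `N m` for every `d ≥ 4`, and so this holds for almost all `α`.

Proof. By the starting theorem `FewExceptionalCurves` of this problem there are `O(H ^ (4 d - 2))` exceptional polynomials with
coefficients at most `H`; the `α` with infinitely many approximation vectors in such a thin set are covered by few small
cubes (`Pool.Agent.N671.DA`).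
-/

set_option autoImplicit false

open MeasureTheory

namespace Pool.Agent.Results.MP_2d259b_nt.BestApproximations

open Pool.Agent.H322R2 (Ix FM card_Ix)
open Pool.Agent.Results.MP_2d259b_nt.RandomResidues (len ht Regular FarZero coeff_le)
open Pool.Agent.L7h23.CV (W vec fm_vec thin_W card_idx ht_fm)
open Pool.Agent.L7h23.Ray (norm_int ball_fin)
open Pool.Agent.N671.DA (Near Thin dim_sys)

/-- the linear forms with the matrix `α` at the coefficients of `F` are within `r` of the `β k`, modulo the integers -/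
def NearForms {d m : ℕ} (α : ↥(Ix d) × Fin m → ℝ) (β : Fin m → ℝ) (F : MvPolynomial (Fin 2) ℤ) (r : ℝ) : Prop :=
  ∀ k : Fin m, ∃ p : ℤ,
    |∑ q : ↥(Ix d), ((F.coeff (Finsupp.single 0 q.1.1 + Finsupp.single 1 q.1.2) : ℤ) : ℝ) * α (q, k) - β k - p| ≤ r

lemma norm_vec {d : ℕ} {F : MvPolynomial (Fin 2) ℤ} (hF : F.totalDegree ≤ d) : ‖vec d F‖ = ht F := by
  apply le_antisymm
  · rw [norm_int _ (Nat.cast_nonneg _)]
    intro p
    have := coeff_le F (Finsupp.single 0 p.1.1 + Finsupp.single 1 p.1.2)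
    rw [vec, ← Int.cast_abs, Int.abs_eq_natAbs]
    exact_mod_cast this
  · have := ht_fm (vec d F) (norm_nonneg _) le_rfl
    rwa [fm_vec hF] at this

theorem main {d : ℕ} (hd : 4 ≤ d) (m : ℕ) (β : Fin m → ℝ) (τ : ℝ) (hτ : 0 < τ) :
    ∃ E : Set (↥(Ix d) × Fin m → ℝ),
      dimH E ≤ ENNReal.ofReal ((d * (d + 3) / 2) * m + (m + (4 * d - 2)) / (1 + τ)) ∧
      ∀ α, α ∉ E → ∀ c : ℝ, {F | Regular d F ∧ NearForms α β F (c * (ht F : ℝ) ^ (-τ)) ∧ FarZero d F}.Finite := by
  classical
  have hd4 : (4 : ℝ) ≤ d := by exact_mod_cast hd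
  obtain ⟨n, hn⟩ : ∃ n : ℕ, n = Fintype.card ↥(Ix d) := ⟨_, rfl⟩
  have hnr : (n : ℝ) - 1 = d * (d + 3) / 2 := by rw [hn, card_idx]
  have hn1 : 1 ≤ n := by
    have : (1 : ℝ) ≤ n := by
      have : (0 : ℝ) ≤ d * (d + 3) / 2 := by positivity
      linarith
    exact_mod_cast this
  obtain e : Fin n ≃ ↥(Ix d) := (finCongr hn).trans (Fintype.equivFin ↥(Ix d)).symm
  obtain ⟨V, hV⟩ : ∃ V : Set (Fin n → ℤ), V = {q | (fun p => q (e.symm p)) ∈ W d} := ⟨_, rfl⟩
  have hnorm : ∀ c : ↥(Ix d) → ℤ, ‖fun i => c (e i)‖ = ‖c‖ := by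
    intro c
    apply le_antisymm
    · rw [norm_int _ (norm_nonneg _)]
      intro i
      rw [← Int.norm_eq_abs]
      exact norm_le_pi_norm c (e i)
    · rw [norm_int _ (norm_nonneg _)]
      intro p
      rw [← Int.norm_eq_abs]
      have := norm_le_pi_norm (fun i => c (e i)) (e.symm p)
      simpa using this
  have hthin : Thin V (4 * d - 2) := by
    intro ε hε
    obtain ⟨C, hC⟩ := thin_W hd ε hε
    refine ⟨C, fun X hX => le_trans ?_ (hC X hX).2⟩
    have hX0 : (0 : ℝ) ≤ X := by linarith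
    have hinj : Function.Injective (fun (q : Fin n → ℤ) (p : ↥(Ix d)) => q (e.symm p)) := by
      intro q q' h
      funext i
      have := congrFun h (e i)
      simpa using this
    rw [← (hinj.injOn (s := {q : Fin n → ℤ | q ∈ V ∧ ∀ i, |(q i : ℝ)| ≤ X})).ncard_image]
    have hsub : (fun (q : Fin n → ℤ) (p : ↥(Ix d)) => q (e.symm p)) ''
        {q : Fin n → ℤ | q ∈ V ∧ ∀ i, |(q i : ℝ)| ≤ X} ⊆ {c | c ∈ W d ∧ ‖c‖ ≤ X} := by
      rintro c ⟨q, ⟨h1, h2⟩, rfl⟩
      rw [hV] at h1
      refine ⟨h1, ?_⟩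
      rw [norm_int _ hX0]
      intro p
      exact h2 _
    exact_mod_cast Set.ncard_le_ncard hsub (hC X hX).1
  obtain ⟨E, hE, h⟩ := dim_sys (m := m) hn1 V (by linarith : (0 : ℝ) ≤ 4 * d - 2) hτ hthin β
  obtain ⟨g, hg⟩ : ∃ g : (Fin n × Fin m → ℝ) → (↥(Ix d) × Fin m → ℝ), g = fun α q => α (e.symm q.1, q.2) := ⟨_, rfl⟩
  have hlip : LipschitzWith 1 g := by
    apply LipschitzWith.of_dist_le_mul
    intro a b
    rw [NNReal.coe_one, one_mul, dist_pi_le_iff dist_nonneg]
    intro q
    rw [hg]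
    exact dist_le_pi_dist a b _
  refine ⟨g '' E, (hlip.dimH_image_le E).trans (hE.trans (le_of_eq ?_)), fun α hα c => ?_⟩
  · rw [hnr]
  · have hα' : (fun q : Fin n × Fin m => α (e q.1, q.2)) ∉ E := by
      intro hcon
      apply hα
      refine ⟨_, hcon, ?_⟩
      rw [hg]
      funext q
      simp
    refine ((h _ hα' c).image (fun q : Fin n → ℤ => FM fun p => q (e.symm p))).subset ?_
    rintro F ⟨h1, h2, h3⟩
    have h4 : FM (vec d F) = F := fm_vec (by rw [h1.1])
    have h5 : ‖vec d F‖ = ht F := norm_vec (by rw [h1.1])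
    refine ⟨fun i => vec d F (e i), ⟨?_, ?_⟩, ?_⟩
    · rw [hV]
      show Regular d (FM fun p => vec d F (e (e.symm p))) ∧ FarZero d (FM fun p => vec d F (e (e.symm p)))
      simp only [Equiv.apply_symm_apply]
      rw [h4]
      exact ⟨h1, h3⟩
    · rw [hnorm, h5]
      intro k
      obtain ⟨p, hp⟩ := h2 k
      refine ⟨p, le_trans (le_of_eq ?_) hp⟩
      congr 3
      rw [← Equiv.sum_comp e]
      rfl
    · show FM (fun p => vec d F (e (e.symm p))) = F
      simp only [Equiv.apply_symm_apply]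
      exact h4

/-- **Theorem.** Let `d ≥ 4`; `↥(Ix d)` is the set of the `N = (d + 1) (d + 2) / 2` pairs `(i, j)` with `i + j ≤ d`.

(1) Let `m ≥ 0`, `β` in `ℝ^m` and `τ > 0`. There is a set `E` of Hausdorff dimension at most
`(N - 1) m + (m + 4 d - 2) / (1 + τ)`, where `N - 1 = d (d + 3) / 2`, such that for all real matrices `α` outside `E` and all `c`
there are only finitely many `F ∈ ℤ[x, y]` of degree `d`, irreducible over `ℚ` and with squarefree leading form, with
`‖∑ F_(i,j) α_(i,j),k - β_k‖ ≤ c ht(F) ^ (-τ)` for all `k`, which have an integer zero with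
`max (|x|, |y|) > ((d + 1) h(F)) ^ C`, `C = 10 ^ 11 * 36 ^ d * (d + 1) ^ 13`.

(2) For `m ≥ 1`, all `β` and almost all `α` this holds for `τ = N / m`, the exponent of the theorem of Minkowski. -/
theorem result (d : ℕ) (hd : 4 ≤ d) :
    (∀ (m : ℕ) (β : Fin m → ℝ) (τ : ℝ), 0 < τ →
      ∃ E : Set (↥(Ix d) × Fin m → ℝ),
        dimH E ≤ ENNReal.ofReal ((d * (d + 3) / 2) * m + (m + (4 * d - 2)) / (1 + τ)) ∧
        ∀ α, α ∉ E → ∀ c : ℝ, {F | Regular d F ∧ NearForms α β F (c * (ht F : ℝ) ^ (-τ)) ∧ FarZero d F}.Finite) ∧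
    (∀ (m : ℕ) (β : Fin m → ℝ), 1 ≤ m → ∀ᵐ α : ↥(Ix d) × Fin m → ℝ, ∀ c : ℝ,
      {F | Regular d F ∧ NearForms α β F (c * (ht F : ℝ) ^ (-((((d + 1) * (d + 2) / 2 : ℕ) : ℝ) / m))) ∧
        FarZero d F}.Finite) := by
  refine ⟨fun m β τ hτ => main hd m β τ hτ, fun m β hm => ?_⟩
  have hd4 : (4 : ℝ) ≤ d := by exact_mod_cast hd
  have hm1 : (1 : ℝ) ≤ m := by exact_mod_cast hm
  have hm0 : (0 : ℝ) < m := by linarith
  obtain ⟨N, hN⟩ : ∃ N : ℝ, N = (((d + 1) * (d + 2) / 2 : ℕ) : ℝ) := ⟨_, rfl⟩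
  have hcard : (Fintype.card ↥(Ix d) : ℝ) = N := by rw [hN, Fintype.card_coe, card_Ix]
  have hN1 : N - 1 = d * (d + 3) / 2 := by rw [← hcard, card_idx]
  have hN14 : 4 * (d : ℝ) - 2 < N := by nlinarith
  rw [← hN]
  obtain ⟨E, hE, h⟩ := main hd m β (N / m) (by
    apply div_pos _ hm0
    nlinarith)
  have hne1 : Nonempty ↥(Ix d) := by
    rw [← Fintype.card_pos_iff]
    have : (0 : ℝ) < Fintype.card ↥(Ix d) := by rw [hcard]; nlinarith
    exact_mod_cast this
  have hne2 : Nonempty (Fin m) := ⟨⟨0, by omega⟩⟩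
  have hnull : volume E = 0 := by
    refine Pool.Agent.L7h23.Ray.null_of_dim hE ?_
    rw [Fintype.card_prod, Fintype.card_fin]
    push_cast
    rw [hcard, ← hN1]
    have h2 : 1 + N / m = (m + N) / m := by field_simp
    rw [h2]
    have h3 : (m + (4 * (d : ℝ) - 2)) / ((m + N) / m) < m := by
      rw [div_div_eq_mul_div, div_lt_iff₀ (by nlinarith)]
      nlinarith
    linarith
  have h1 : ∀ᵐ α : ↥(Ix d) × Fin m → ℝ, α ∉ E := by
    rw [ae_iff]
    simpa using hnull
  filter_upwards [h1] with α hα c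
  exact h α hα c

end Pool.Agent.Results.MP_2d259b_nt.BestApproximations
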