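import Pool.Agent.L7h23.CurveVec

/-!
# One explicit bound for the integer points of ALL plane curves near the multiples of almost every real polynomial

Let `d ≥ 4`, and let `ξ` be a real polynomial `∑ ξ_(i,j) x^i y^j` of degree at most `d`. We consider ALL the integral
polynomials `F` whose coefficients are within `A T^θ` of those of `T ξ` for some real `T ≥ 1`; for `θ > 0` they fill a growing
neighbourhood of the ray `ℝ ξ`. There is a set `E` of Hausdorff dimension at most `1 + (4 d - 2) / (1 - θ)` in the space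
`ℝ^N`, `N = (d + 1) (d + 2) / 2`, of these polynomials, such that for each `ξ` outside `E` and each `A`, for all but finitely
many of these `F` that are of degree `d`, irreducible over `ℚ` and with squarefree leading form, all integer points of the
curve `F = 0` satisfy `max (|x|, |y|) ≤ ((d + 1) h(F)) ^ C` with the explicit `C = 10 ^ 11 * 36 ^ d * (d + 1) ^ 13`.

For `d ≥ 5` this holds for almost every real polynomial `ξ`, for all `A` and all `θ < 1 - (8 d - 4) / (d (d + 3))`; this
exponent tends to `1` as `d` grows. So the polynomials violating the bound avoid wide neighbourhoods of almost every ray.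

Proof. By the starting theorem `FewExceptionalCurves` of this problem there are `O(H ^ (4 d - 2))` exceptional polynomials with
coefficients at most `H`. The set of the `ξ` that have one of them, of height about `H`, in the neighbourhood of the ray is
covered by `O(H ^ (4 d - 2 + 1 - θ))` cubes of side `H ^ (θ - 1)`.
-/

set_option autoImplicit false

open MeasureTheory

namespace Pool.Agent.Results.MP_2d259b_nt.CurvesNearRays

open Pool.Agent.H322R2 (Ix FM)
open Pool.Agent.Results.MP_2d259b_nt.RandomResidues (len ht Regular FarZero)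
open Pool.Agent.L7h23.CV (W vec fm_vec thin_W card_idx)
open Pool.Agent.L7h23.Ray

/-- the coefficients of `x ^ i y ^ j`, `i + j ≤ d`, in `F` are within `A T ^ θ` of those of `T ξ`, for some real `T ≥ 1` -/
def NearMultiple (d : ℕ) (θ A : ℝ) (ξ : ↥(Ix d) → ℝ) (F : MvPolynomial (Fin 2) ℤ) : Prop :=
  ∃ T : ℝ, 1 ≤ T ∧ ∀ p : ↥(Ix d),
    |((F.coeff (Finsupp.single 0 p.1.1 + Finsupp.single 1 p.1.2) : ℤ) : ℝ) - T * ξ p| ≤ A * T ^ θ

lemma fin_of {d : ℕ} {θ A : ℝ} {ξ : ↥(Ix d) → ℝ} (h : {c | c ∈ W d ∧ NearRay θ A ξ c}.Finite) :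
    {F | Regular d F ∧ NearMultiple d θ A ξ F ∧ FarZero d F}.Finite := by
  refine (h.image FM).subset ?_
  rintro F ⟨h1, h2, h3⟩
  have h4 : FM (vec d F) = F := fm_vec (by rw [h1.1])
  refine ⟨vec d F, ⟨?_, h2⟩, h4⟩
  show Regular d (FM (vec d F)) ∧ FarZero d (FM (vec d F))
  rw [h4]
  exact ⟨h1, h3⟩

/-- **Theorem.** Let `d ≥ 4`; `↥(Ix d)` is the set of the pairs `(i, j)` with `i + j ≤ d`, and `ξ : ↥(Ix d) → ℝ` stands for the
real polynomial `∑ ξ_(i,j) x^i y^j`.

(1) For `θ < 1` there is a set `E` of Hausdorff dimension at most `1 + (4 d - 2) / (1 - θ)` such that for all `ξ` outside `E`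
and all `A` there are only finitely many `F ∈ ℤ[x, y]` of degree `d`, irreducible over `ℚ` and with squarefree leading form,
whose coefficients are within `A T ^ θ` of those of `T ξ` for some real `T ≥ 1`, and which have an integer zero with
`max (|x|, |y|) > ((d + 1) h(F)) ^ C`, `C = 10 ^ 11 * 36 ^ d * (d + 1) ^ 13`.

(2) Let `d ≥ 5`. For almost every real polynomial `ξ` this holds for all `θ < 1 - (8 d - 4) / (d (d + 3))` and all `A`.

(3) So for `d ≥ 5` and almost every `ξ`, for all these `θ` and `A`, there is `H₀` such that for all `F ∈ ℤ[x, y]` of degree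
`d`, irreducible over `ℚ` and with squarefree leading form, whose coefficients are within `A T ^ θ` of those of `T ξ` for some
real `T ≥ 1`, and which have a coefficient of absolute value at least `H₀`, all integer zeros `(x, y)` of `F` satisfy
`max (|x|, |y|) ≤ ((d + 1) h(F)) ^ C`. -/
theorem result (d : ℕ) (hd : 4 ≤ d) :
    (∀ θ : ℝ, θ < 1 → ∃ E : Set (↥(Ix d) → ℝ), dimH E ≤ ENNReal.ofReal (1 + (4 * d - 2) / (1 - θ)) ∧
      ∀ ξ, ξ ∉ E → ∀ A : ℝ, {F | Regular d F ∧ NearMultiple d θ A ξ F ∧ FarZero d F}.Finite) ∧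
    (5 ≤ d → ∀ᵐ ξ : ↥(Ix d) → ℝ, ∀ θ A : ℝ, θ < 1 - (8 * d - 4) / (d * (d + 3)) →
      {F | Regular d F ∧ NearMultiple d θ A ξ F ∧ FarZero d F}.Finite) ∧
    (5 ≤ d → ∀ᵐ ξ : ↥(Ix d) → ℝ, ∀ θ A : ℝ, θ < 1 - (8 * d - 4) / (d * (d + 3)) →
      ∃ H₀ : ℕ, ∀ F : MvPolynomial (Fin 2) ℤ, Regular d F → NearMultiple d θ A ξ F → H₀ ≤ ht F →
        ∀ x y : ℤ, MvPolynomial.eval ![x, y] F = 0 →
          max x.natAbs y.natAbs ≤ ((d + 1) * len F) ^ (10 ^ 11 * 36 ^ d * (d + 1) ^ 13)) := by
  have hd4 : (4 : ℝ) ≤ d := by exact_mod_cast hd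
  have ae : 5 ≤ d → ∀ᵐ ξ : ↥(Ix d) → ℝ, ∀ θ A : ℝ, θ < 1 - (8 * d - 4) / (d * (d + 3)) →
      {F | Regular d F ∧ NearMultiple d θ A ξ F ∧ FarZero d F}.Finite := by
    intro hd5
    have h5 : (5 : ℝ) ≤ d := by exact_mod_cast hd5
    filter_upwards [ray_ae (W := W d) (s := 4 * d - 2) (by linarith) (thin_W hd) (by
      rw [card_idx]
      nlinarith)] with ξ hξ θ A hθ
    refine fin_of (hξ θ A ?_)
    rw [card_idx]
    have : ((4 : ℝ) * d - 2) / (d * (d + 3) / 2) = (8 * d - 4) / (d * (d + 3)) := by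
      field_simp
      ring
    rw [this]
    exact hθ
  refine ⟨fun θ hθ => ?_, ae, fun hd5 => ?_⟩
  · obtain ⟨E, hE, h⟩ := ray_dim (W := W d) (s := 4 * d - 2) (by linarith) hθ (thin_W hd)
    exact ⟨E, hE, fun ξ hξ A => fin_of (h ξ hξ A)⟩
  · filter_upwards [ae hd5] with ξ hξ θ A hθ
    obtain ⟨M, hM⟩ := ((hξ θ A hθ).image ht).bddAbove
    refine ⟨M + 1, fun F hF hn hht x y hxy => ?_⟩
    by_contra hcon
    have : ht F ≤ M := hM ⟨F, ⟨hF, hn, x, y, hxy, not_le.1 hcon⟩, rfl⟩
    omega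

end Pool.Agent.Results.MP_2d259b_nt.CurvesNearRays
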