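import Pool.Agent.Results.MP_2d259b_nt.StarshapedFibres
import Pool.Agent.N251.LF.Win

/-!
# Effective bounds for the integer points on all curves `F(x, y) = t`, `t` near the values of generic polynomials and generic linear forms

Let `v_i`, `i` in a countable set, be vectors in `ℝ^m`, `O(X^(τ + ε))` of them of norm at most `X` for every `ε > 0`: for
instance `(1, n, …, n^e)` with `τ = 1 / e`, or `(b_1^(n_1), …, b_m^(n_m))`, `b_j > 1`, for all `n_1, …, n_m`, with `τ = 0`, or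
`(n_1^(a_1), …, n_m^(a_m))` with `τ = ∑ 1 / a_j`. Let `d ≥ 4` and `θ < 1`. There is ONE set `E` of Hausdorff dimension at
most `m - 1 + (1 / d + τ) / (1 - θ)` in `ℝ^m` such that for each `α` outside `E`, for ALL polynomials `F ∈ ℤ[x, y]` of degree
at least `d` with squarefree leading form, each `c` and all but finitely many `i`, for ALL integers `t` with
`||t| - α · v_i| ≤ c ‖v_i‖^θ` all integer points of the curve `F(x, y) = t` are bounded by an explicit power of
`h(F) + |t|`. The dimension is less than `m` if `1 / d + τ + θ < 1`. So for almost all real polynomials `f` of degree `e ≥ 2`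
this holds, for all `F`, for all `t` within `n^(eθ)` of `f(n)`, `θ < 3/4 - 1/e`, `n` large; and for almost all
`(α_1, …, α_m)` it holds for all large `t` near numbers `α_1 b_1^(n_1) + … + α_m b_m^(n_m)`.

Proof. For each `i` the set of the `α` with an exceptional `t` in the window is contained in few slabs between parallel
hyperplanes, by the starting theorem `FibresOffPolynomialValues` of this problem; they are covered by small cubes
(`Pool.Agent.N251.LF`). The lemma `count` is that of `StarshapedFibres`.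
-/

set_option autoImplicit false

namespace Pool.Agent.Results.MP_2d259b_nt.GenericLinearForms

open Finset
open Pool.Agent.Results.MP_2d259b_nt.StarshapedFibres (bound Exc count)
open Pool.Agent.N251.LF (Fam Sq linear_windows)

/-- **Theorem.** Let `v` be a family of vectors in `ℝ^m` of exponent `τ ≥ 0`, let `θ < 1` and `d ≥ 4`. There is a set `E` of
Hausdorff dimension at most `m - 1 + (1 / d + τ) / (1 - θ)` such that for each `α` in `ℝ^m` outside `E`, for all
`F ∈ ℤ[x, y]` of degree at least `d` with squarefree leading form, each `c` and all but finitely many `i`, for ALL integers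
`t` with `||t| - ∑ α_j v_(i,j)| ≤ c ‖v_i‖^θ` all integer points `(x, y)` of `F(x, y) = t` satisfy
`max(|x|, |y|) ≤ bound F t`. The vectors `(1, n, …, n^e)` are a family of exponent `1 / e`, the `(b_1^(n_1), …, b_m^(n_m))` with
`b_j > 1` one of exponent `0`, the `(n_1^(a_1), …, n_m^(a_m))` with `a_j > 0` one of exponent `∑ 1 / a_j`, and the
`(u_1(n_1), …, u_m(n_m))` one of exponent `∑ τ_j`, if the sequences `u_j` have exponents `τ_j`. -/
theorem result :
    (∀ (d m : ℕ) (ι : Type) (v : ι → Fin m → ℝ) (τ θ : ℝ), 4 ≤ d → Fam v τ → 0 ≤ τ → θ < 1 →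
      ∃ E : Set (Fin m → ℝ), dimH E ≤ ENNReal.ofReal ((m : ℝ) - 1 + (1 / (d : ℝ) + τ) / (1 - θ)) ∧ ∀ α, α ∉ E →
        ∀ F : MvPolynomial (Fin 2) ℤ, d ≤ F.totalDegree → Squarefree (MvPolynomial.map (Int.castRingHom ℚ)
          (MvPolynomial.homogeneousComponent F.totalDegree F)) → ∀ c : ℝ,
        {i | ¬ ∀ t : ℤ, |(|t| : ℝ) - ∑ j, α j * v i j| ≤ c * ‖v i‖ ^ θ →
          ∀ x y : ℤ, MvPolynomial.eval ![x, y] F = t → max x.natAbs y.natAbs ≤ bound F t}.Finite) ∧
    (∀ e : ℕ, 1 ≤ e → Fam (fun (n : ℕ) (j : Fin (e + 1)) => (n : ℝ) ^ (j : ℕ)) (1 / e)) ∧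
    (∀ (m : ℕ) (b : Fin m → ℝ), (∀ j, 1 < b j) → Fam (fun (n : Fin m → ℕ) (j : Fin m) => b j ^ n j) 0) ∧
    (∀ (m : ℕ) (a : Fin m → ℝ), (∀ j, 0 < a j) →
      Fam (fun (n : Fin m → ℕ) (j : Fin m) => (n j : ℝ) ^ a j) (∑ j, 1 / a j)) ∧
    ∀ (m : ℕ) (u : Fin m → ℕ → ℝ) (τ : Fin m → ℝ), (∀ j, Sq (u j) (τ j)) →
      Fam (fun (n : Fin m → ℕ) (j : Fin m) => u j (n j)) (∑ j, τ j) := by
  refine ⟨fun d m ι v τ θ hd hv hτ hθ => ?_, Pool.Agent.N251.LF.examples⟩
  obtain ⟨I, hI⟩ : ∃ I : Set (MvPolynomial (Fin 2) ℤ), I = {F | d ≤ F.totalDegree ∧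
    Squarefree (MvPolynomial.map (Int.castRingHom ℚ)
      (MvPolynomial.homogeneousComponent F.totalDegree F))} := ⟨_, rfl⟩
  have key : ∀ F : MvPolynomial (Fin 2) ℤ, ∃ E : Set (Fin m → ℝ),
      dimH E ≤ ENNReal.ofReal ((m : ℝ) - 1 + (1 / (d : ℝ) + τ) / (1 - θ)) ∧ (F ∈ I → ∀ α, α ∉ E → ∀ c : ℝ,
      {i | ∃ t ∈ Exc F, |(|(t : ℝ)|) - ∑ j, α j * v i j| ≤ c * ‖v i‖ ^ θ}.Finite) := by
    intro F
    by_cases hFI : F ∈ I
    · rw [hI] at hFI
      obtain ⟨E, h1, h2⟩ := linear_windows (Exc F) (fun k : ℤ => |(k : ℝ)|) v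
        (s := 1 / (d : ℝ)) (by positivity) hτ hθ hv (count d hd F hFI.1 hFI.2)
      exact ⟨E, h1, fun _ => h2⟩
    · exact ⟨∅, by simp, fun h => absurd h hFI⟩
  choose E h1 h2 using key
  have hcount : Countable (MvPolynomial (Fin 2) ℤ) := by
    apply Cardinal.mk_le_aleph0_iff.1
    refine (MvPolynomial.cardinalMk_le_max (σ := Fin 2) (R := ℤ)).trans ?_
    simp
  refine ⟨⋃ F, E F, ?_, fun α hαE F hFd hFs c => ?_⟩
  · rw [dimH_iUnion]
    exact iSup_le h1
  · refine (h2 F (by rw [hI]; exact ⟨hFd, hFs⟩) α (fun h => hαE (Set.mem_iUnion.2 ⟨F, h⟩)) c).subset ?_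
    intro i hi
    simp only [Set.mem_setOf_eq] at hi ⊢
    push Not at hi
    obtain ⟨t, hw, x, y, hxy, hcon⟩ := hi
    exact ⟨t, ⟨x, y, hxy, hcon⟩, hw⟩

end Pool.Agent.Results.MP_2d259b_nt.GenericLinearForms
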