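import Pool.Agent.Results.MP_2d259b_nt.StarshapedFibres
import Pool.Agent.N671.DA.Win

/-!
# Effective bounds for the integer points on all curves `F(x, y) = t`, `t` near functions of the denominators of good approximations

Let `α_1, …, α_m` be real numbers. We consider the natural numbers `q` with `‖q α_j - β_j‖ ≤ c q^(-τ)` for all `j`, `‖x‖` the
distance to the nearest integer; for `β = 0`, `c = 1`, `τ = 1 / m` these include the denominators of all best simultaneous
approximations (the denominators of the convergents for `m = 1`). Let `G` be a function with steps bounded below by a positive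
constant and growth at most `v^e`, for example `a v^e`, let `0 ≤ κ ≤ 1` and `d ≥ 4`. There is ONE set `E` of Hausdorff
dimension at most `(m + e / d + κ) / (1 + τ)` in `ℝ^m` such that for each `α` outside `E`, for ALL polynomials
`F ∈ ℤ[x, y]` of degree at least `d` with squarefree leading form, each `c` and all but finitely many such `q`, for ALL
integers `t` with `||t| - G q| ≤ q^κ` all integer points of the curve `F(x, y) = t` are bounded by an explicit power of
`h(F) + |t|`. For `τ = 1 / m` the dimension is less than `m` if `e / d + κ < 1`, and so this holds for almost all `α`: for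
instance for `G q = q^3` and all `t` within `q^κ`, `κ < 1 / 4`, of `q^3`.

Proof. The `q` with an exceptional `t` near `G q` form a thin set by the starting theorem `FibresOffPolynomialValues` of this
problem; and the `α` with `‖q α_j - β_j‖ ≤ c q^(-τ)` for all `j` and infinitely many `q` of such a set are covered by few
small cubes (`Pool.Agent.N671.DA`). The lemma `count` is that of `StarshapedFibres`.
-/

set_option autoImplicit false

namespace Pool.Agent.Results.MP_2d259b_nt.SimultaneousApproximations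

open Pool.Agent.Results.MP_2d259b_nt.StarshapedFibres (bound Exc count)
open Pool.Agent.N671.DA (Solves Expanding expanding_pow approx_windows)

/-- **Theorem.** Let `G` have steps `≥ a > 0` and growth at most `v^e`, let `0 ≤ κ ≤ 1`, `d ≥ 4`, `β` in `ℝ^m` and `τ > 0`.
There is a set `E` of Hausdorff dimension at most `(m + e / d + κ) / (1 + τ)` such that for each `α` in `ℝ^m` outside `E`, for
all `F ∈ ℤ[x, y]` of degree at least `d` with squarefree leading form, each `c` and all large `q` with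
`‖q α_j - β_j‖ ≤ c q^(-τ)` for all `j`, for ALL integers `t` with `||t| - G q| ≤ q^κ` all integer points `(x, y)` of
`F(x, y) = t` satisfy `max(|x|, |y|) ≤ bound F t`. The functions `a v^e` with `a > 0`, `e ≥ 1` are examples of `G`. -/
theorem result :
    (∀ (d : ℕ), 4 ≤ d → ∀ (G : ℕ → ℝ) (e : ℝ), Expanding G e → ∀ κ : ℝ, 0 ≤ κ → κ ≤ 1 →
      ∀ (m : ℕ) (β : Fin m → ℝ) (τ : ℝ), 0 < τ →
      ∃ E : Set (Fin m → ℝ), dimH E ≤ ENNReal.ofReal ((m + (e * (1 / (d : ℝ)) + κ)) / (1 + τ)) ∧ ∀ α, α ∉ E →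
        ∀ F : MvPolynomial (Fin 2) ℤ, d ≤ F.totalDegree → Squarefree (MvPolynomial.map (Int.castRingHom ℚ)
          (MvPolynomial.homogeneousComponent F.totalDegree F)) → ∀ c : ℝ,
        ∃ Q : ℕ, ∀ q : ℕ, Q ≤ q → Solves α β q (c * (q : ℝ) ^ (-τ)) → ∀ t : ℤ, |(|t| : ℝ) - G q| ≤ (q : ℝ) ^ κ →
          ∀ x y : ℤ, MvPolynomial.eval ![x, y] F = t → max x.natAbs y.natAbs ≤ bound F t) ∧
    ∀ a e : ℝ, 0 < a → 1 ≤ e → Expanding (fun v => a * (v : ℝ) ^ e) e := by
  refine ⟨fun d hd G e hG κ hκ hκ1 m β τ hτ => ?_, fun _ _ ha he => expanding_pow ha he⟩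
  obtain ⟨I, hI⟩ : ∃ I : Set (MvPolynomial (Fin 2) ℤ), I = {F | d ≤ F.totalDegree ∧
    Squarefree (MvPolynomial.map (Int.castRingHom ℚ)
      (MvPolynomial.homogeneousComponent F.totalDegree F))} := ⟨_, rfl⟩
  have key : ∀ F : MvPolynomial (Fin 2) ℤ, ∃ E : Set (Fin m → ℝ),
      dimH E ≤ ENNReal.ofReal ((m + (e * (1 / (d : ℝ)) + κ)) / (1 + τ)) ∧ (F ∈ I → ∀ α, α ∉ E → ∀ c : ℝ,
      ∃ Q : ℕ, ∀ q : ℕ, Q ≤ q → Solves α β q (c * (q : ℝ) ^ (-τ)) →
        ∀ t ∈ Exc F, ¬ |(|(t : ℝ)|) - G q| ≤ (q : ℝ) ^ κ) := by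
    intro F
    by_cases hFI : F ∈ I
    · rw [hI] at hFI
      obtain ⟨E, h1, h2⟩ := approx_windows (Exc F) (fun k : ℤ => |(k : ℝ)|) hG
        (s := 1 / (d : ℝ)) (by positivity) hκ hκ1 (count d hd F hFI.1 hFI.2) β hτ
      exact ⟨E, h1, fun _ => h2⟩
    · exact ⟨∅, by simp, fun h => absurd h hFI⟩
  choose E h1 h2 using key
  have hcount : Countable (MvPolynomial (Fin 2) ℤ) := by
    apply Cardinal.mk_le_aleph0_iff.1
    refine (MvPolynomial.cardinalMk_le_max (σ := Fin 2) (R := ℤ)).trans ?_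
    simp
  refine ⟨⋃ F, E F, ?_, fun α hαE F hFd hFs c => ?_⟩
  · rw [dimH_iUnion]
    exact iSup_le h1
  · obtain ⟨Q, hQ⟩ := h2 F (by rw [hI]; exact ⟨hFd, hFs⟩) α (fun h => hαE (Set.mem_iUnion.2 ⟨F, h⟩)) c
    refine ⟨Q, fun q hq h3 t hw x y hxy => ?_⟩
    by_contra hcon
    push Not at hcon
    exact hQ q hq h3 t ⟨x, y, hxy, hcon⟩ hw

end Pool.Agent.Results.MP_2d259b_nt.SimultaneousApproximations
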